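import Pool.Agent.Helper60_GTO.NBR

/-! Squad GTO, row FLP: the flip rule. -/

namespace Pool.Agent.GTO.H60

open Finset
open scoped Classical

theorem ln_comm {ι : Type} [Fintype ι] (a : ι → V) (i j : ι) : ln a i j = ln a j i := by
  ext l
  unfold ln
  rw [mem_filter, mem_filter]
  have : dt (a i) (a j) (a l) = - dt (a j) (a i) (a l) := by
    unfold dt
    ring
  rw [this, neg_eq_zero]

theorem flpp : FlpStmt := by
  intro ι _ a hP d h hg
  obtain ⟨n1, n2, n3, n4, n5, n6, n7, n8, n9, n10, n11, n12, n13, n14, n15⟩ := good_ne h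
  obtain ⟨p, q, r, hp, hq, hr, he, zp, zq, zr⟩ := coords' hP h
  obtain ⟨m1, m2, m3, m4, m5, m6⟩ := nbr ι a hP d h
  have hD := h.2.1
  obtain ⟨e0, he0, hge⟩ := hg
  -- rotate
  have hex : ∃ e : Dat ι, e.s = flp d.s d.w ∧ Good a e ∧ e.u = d.w := by
    have h1 := (gdw ι a hP e0 hge).2.1
    rw [he0] at h1
    rw [h1, mem_insert, mem_insert, mem_singleton] at m2
    rcases m2 with h2 | h2 | h2
    · exact ⟨e0, he0, hge, h2.symm⟩
    · exact ⟨rot e0, he0, good_rot hge, h2.symm⟩
    · exact ⟨rot (rot e0), he0, good_rot (good_rot hge), h2.symm⟩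
  obtain ⟨e, hes, hge, heu⟩ := hex
  obtain ⟨k1, k2, k3, k4, k5⟩ := gdw ι a hP e hge
  obtain ⟨x1, x2, x3, x4, x5, x6, x7, x8, x9, x10, x11, x12, x13, x14, x15⟩ := good_ne hge
  rw [hes] at k2
  rw [k2, mem_insert, mem_insert, mem_singleton] at m3 m4
  have pu' : p d.u' = 0 := (zp _).2 (Or.inr (Or.inr rfl))
  have qu' : 0 < q d.u' := by
    refine lt_of_le_of_ne (hq _) (fun h0 => ?_)
    rcases (zq _).1 h0.symm with h1 | h1 | h1
    · exact n4 h1
    · exact n6 h1
    · exact n13 h1
  have qv' : q d.v' = 0 := (zq _).2 (Or.inr (Or.inr rfl))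
  have pv' : 0 < p d.v' := by
    refine lt_of_le_of_ne (hp _) (fun h0 => ?_)
    rcases (zp _).1 h0.symm with h1 | h1 | h1
    · exact n8 h1
    · exact n9 h1
    · exact n13 h1.symm
  have hpos : 0 < dt (bv a e.s e.u) (bv a e.s e.v) (bv a e.s e.w) := hge.2.1
  have hor : e.v = d.u' ∧ e.w = d.v' := by
    rw [heu] at m3 m4
    rcases m3 with h1 | h1 | h1
    · exact absurd h1 n6
    · refine ⟨h1.symm, ?_⟩
      rcases m4 with h2 | h2 | h2
      · exact absurd h2 n9
      · exact absurd (h1.trans h2.symm) n13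
      · exact h2.symm
    · exfalso
      rcases m4 with h2 | h2 | h2
      · exact n9 h2
      · rw [hes, heu, ← h1, ← h2, bv_flp_same, bv_flp_ne _ n9, bv_flp_ne _ n6, he d.u', he d.v',
          pu', qv'] at hpos
        have h3 : dt (-bv a d.s d.w) (p d.v' • bv a d.s d.u + (0 : ℝ) • bv a d.s d.v +
            r d.v' • bv a d.s d.w) ((0 : ℝ) • bv a d.s d.u + q d.u' • bv a d.s d.v +
            r d.u' • bv a d.s d.w) =
            -(p d.v' * q d.u' * dt (bv a d.s d.u) (bv a d.s d.v) (bv a d.s d.w)) := by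
          simp only [dt, Pi.add_apply, Pi.neg_apply, Pi.smul_apply, smul_eq_mul]
          ring
        rw [h3] at hpos
        have h4 := mul_pos (mul_pos pv' qu') hD
        linarith
      · exact n13 (h1.trans h2.symm)
  obtain ⟨hev, hew⟩ := hor
  refine ⟨e, h, hge, hes, heu, hev, hew, ?_, ?_⟩
  · have h1 : e.v' ∈ ln a d.w d.v' := by
      rw [ln_comm, ← heu, ← hew, k4]
      simp
    rw [m6, mem_insert, mem_insert, mem_singleton] at h1
    rcases h1 with h2 | h2 | h2
    · exact absurd (h2.trans heu.symm) x7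
    · exact absurd (h2.trans hew.symm) x9
    · exact h2
  · have h1 : e.w' ∈ ln a d.w d.u' := by
      rw [← heu, ← hev, k5]
      simp
    rw [m5, mem_insert, mem_insert, mem_singleton] at h1
    rcases h1 with h2 | h2 | h2
    · exact absurd (h2.trans heu.symm) x10
    · exact absurd (h2.trans hev.symm) x11
    · exact h2

end Pool.Agent.GTO.H60
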