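import Pool.Agent.GTO.StmtsA

/-! Squad GTO, row GDW: walls and sides of good data. -/

namespace Pool.Agent.GTO.H60

open Finset
open scoped Classical

theorem sg_ne (b : Bool) : sg b ≠ 0 := by cases b <;> simp [sg]

theorem sg_not (b : Bool) : sg (!b) = - sg b := by cases b <;> simp [sg]

theorem ip_neg (u x : V) : ip (-u) x = - ip u x := by
  simp only [ip, Pi.neg_apply]
  ring

theorem ip_comb (p q r : ℝ) (u v w x : V) :
    ip (p • u + q • v + r • w) x = p * ip u x + q * ip v x + r * ip w x := by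
  simp only [ip, Pi.add_apply, Pi.smul_apply, smul_eq_mul]
  ring

theorem cramer (u v w x : V) :
    dt u v w • x = dt x v w • u + dt u x w • v + dt u v x • w := by
  ext i
  fin_cases i <;> simp [dt] <;> ring

theorem dt_cyc (u v w : V) : dt u v w = dt v w u := by
  unfold dt
  ring

theorem dt_eq1 (u w : V) : dt u u w = 0 := by
  unfold dt
  ring

theorem dt_eq2 (u w : V) : dt u w u = 0 := by
  unfold dt
  ring

theorem dt_eq3 (u w : V) : dt w u u = 0 := by
  unfold dt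
  ring

theorem exists_ip (u v w : V) (h : dt u v w ≠ 0) (p q r : ℝ) :
    ∃ x : V, ip u x = p ∧ ip v x = q ∧ ip w x = r := by
  have h1 : ip u ((dt u v w)⁻¹ • (p • cr v w + q • cr w u + r • cr u v)) =
      (dt u v w)⁻¹ * (p * dt u v w) := by
    simp [ip, cr, dt]
    ring
  have h2 : ip v ((dt u v w)⁻¹ • (p • cr v w + q • cr w u + r • cr u v)) =
      (dt u v w)⁻¹ * (q * dt u v w) := by
    simp [ip, cr, dt]
    ring
  have h3 : ip w ((dt u v w)⁻¹ • (p • cr v w + q • cr w u + r • cr u v)) =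
      (dt u v w)⁻¹ * (r * dt u v w) := by
    simp [ip, cr, dt]
    ring
  refine ⟨(dt u v w)⁻¹ • (p • cr v w + q • cr w u + r • cr u v), ?_, ?_, ?_⟩
  · rw [h1]
    field_simp
  · rw [h2]
    field_simp
  · rw [h3]
    field_simp

theorem dt_smul3 (s t r : ℝ) (u v w : V) :
    dt (s • u) (t • v) (r • w) = s * t * r * dt u v w := by
  simp only [dt, Pi.smul_apply, smul_eq_mul]
  ring

section

variable {ι : Type} {a : ι → V}

theorem bv_flp_same (σ : ι → Bool) (i : ι) : bv a (flp σ i) i = - bv a σ i := by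
  unfold bv flp
  rw [Function.update_self, sg_not, neg_smul]

theorem bv_flp_ne (σ : ι → Bool) {i l : ι} (h : l ≠ i) : bv a (flp σ i) l = bv a σ l := by
  unfold bv flp
  rw [Function.update_of_ne h]

theorem dt_bv (σ : ι → Bool) (i j k : ι) :
    dt (bv a σ i) (bv a σ j) (bv a σ k) = 0 ↔ dt (a i) (a j) (a k) = 0 := by
  unfold bv
  rw [dt_smul3]
  have h1 := sg_ne (σ i)
  have h2 := sg_ne (σ j)
  have h3 := sg_ne (σ k)
  simp [h1, h2, h3]

theorem bv_ne (h : PI a) (σ : ι → Bool) {i j : ι} (hij : i ≠ j) : bv a σ i ≠ 0 := by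
  intro h0
  apply h i j hij
  have h1 : a i = 0 := by
    unfold bv at h0
    rcases smul_eq_zero.1 h0 with h2 | h2
    · exact absurd h2 (sg_ne _)
    · exact h2
  rw [h1]
  ext k
  fin_cases k <;> simp [cr]

/-- two vectors of the family are not parallel -/
theorem bv_par (h : PI a) (σ : ι → Bool) {i j : ι} (hij : i ≠ j) (t : ℝ) :
    bv a σ i ≠ t • bv a σ j := by
  intro h0
  apply h i j hij
  have h1 : a i = ((sg (σ i))⁻¹ * (t * sg (σ j))) • a j := by
    unfold bv at h0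
    rw [smul_smul] at h0
    rw [mul_smul, ← h0, smul_smul, inv_mul_cancel₀ (sg_ne _), one_smul]
  rw [h1]
  ext k
  fin_cases k <;> simp [cr] <;> ring

theorem good_rot {d : Dat ι} (h : Good a d) : Good a (rot d) := by
  obtain ⟨h1, h2, h3⟩ := h
  refine ⟨?_, ?_, ?_⟩
  · simp only [rot, List.nodup_cons, List.mem_cons, List.not_mem_nil, not_or, or_false] at h1 ⊢
    obtain ⟨⟨p1, p2, p3, p4, p5⟩, ⟨q1, q2, q3, q4⟩, ⟨r1, r2, r3⟩, ⟨s1, s2⟩, t1, u1⟩ := h1
    exact ⟨⟨q1, Ne.symm p1, q3, q4, q2⟩, ⟨Ne.symm p2, r2, r3, r1⟩, ⟨p4, p5, p3⟩,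
      ⟨t1, Ne.symm s1⟩, Ne.symm s2, u1⟩
  · show 0 < dt (bv a d.s d.v) (bv a d.s d.w) (bv a d.s d.u)
    rw [← dt_cyc]
    exact h2
  · intro l hl1 hl2 hl3
    obtain ⟨h4, h5, h6⟩ := h3 l hl3 hl1 hl2
    refine ⟨?_, ?_, ?_⟩
    · show 0 ≤ dt (bv a d.s l) (bv a d.s d.w) (bv a d.s d.u) ∧
        (dt (bv a d.s l) (bv a d.s d.w) (bv a d.s d.u) = 0 ↔ l = d.v')
      rw [← dt_cyc]
      exact h5
    · show 0 ≤ dt (bv a d.s d.v) (bv a d.s l) (bv a d.s d.u) ∧
        (dt (bv a d.s d.v) (bv a d.s l) (bv a d.s d.u) = 0 ↔ l = d.w')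
      rw [← dt_cyc]
      exact h6
    · show 0 ≤ dt (bv a d.s d.v) (bv a d.s d.w) (bv a d.s l) ∧
        (dt (bv a d.s d.v) (bv a d.s d.w) (bv a d.s l) = 0 ↔ l = d.u')
      rw [← dt_cyc (bv a d.s l)]
      exact h4

/-- nonnegative coordinates -/
theorem coords {d : Dat ι} (h : Good a d) (l : ι) : ∃ p q r : ℝ, 0 ≤ p ∧ 0 ≤ q ∧ 0 ≤ r ∧
    bv a d.s l = p • bv a d.s d.u + q • bv a d.s d.v + r • bv a d.s d.w := by
  obtain ⟨h1, h2, h3⟩ := h
  have hc := cramer (bv a d.s d.u) (bv a d.s d.v) (bv a d.s d.w) (bv a d.s l)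
  have hn : 0 ≤ dt (bv a d.s l) (bv a d.s d.v) (bv a d.s d.w) ∧
      0 ≤ dt (bv a d.s d.u) (bv a d.s l) (bv a d.s d.w) ∧
      0 ≤ dt (bv a d.s d.u) (bv a d.s d.v) (bv a d.s l) := by
    by_cases hu : l = d.u
    · rw [hu, dt_eq1, dt_eq2]
      exact ⟨h2.le, le_refl _, le_refl _⟩
    by_cases hv : l = d.v
    · rw [hv, dt_eq1, dt_eq3]
      exact ⟨le_refl _, h2.le, le_refl _⟩
    by_cases hw : l = d.w
    · rw [hw, dt_eq2, dt_eq3]
      exact ⟨le_refl _, le_refl _, h2.le⟩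
    obtain ⟨h4, h5, h6⟩ := h3 l hu hv hw
    exact ⟨h4.1, h5.1, h6.1⟩
  obtain ⟨n1, n2, n3⟩ := hn
  set D := dt (bv a d.s d.u) (bv a d.s d.v) (bv a d.s d.w) with hD
  refine ⟨D⁻¹ * dt (bv a d.s l) (bv a d.s d.v) (bv a d.s d.w),
    D⁻¹ * dt (bv a d.s d.u) (bv a d.s l) (bv a d.s d.w),
    D⁻¹ * dt (bv a d.s d.u) (bv a d.s d.v) (bv a d.s l), ?_, ?_, ?_, ?_⟩
  · exact mul_nonneg (inv_nonneg.2 h2.le) n1
  · exact mul_nonneg (inv_nonneg.2 h2.le) n2
  · exact mul_nonneg (inv_nonneg.2 h2.le) n3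
  · rw [mul_smul, mul_smul, mul_smul, ← smul_add, ← smul_add, ← hc, smul_smul,
      inv_mul_cancel₀ h2.ne', one_smul]

variable [Fintype ι]

theorem good_tope (hP : PI a) {d : Dat ι} (h : Good a d) : Tope a d.s := by
  obtain ⟨x, hx1, hx2, hx3⟩ := exists_ip _ _ _ h.2.1.ne' 1 1 1
  have huv : d.u ≠ d.v := by
    have h1 := h.1
    simp only [List.nodup_cons, List.mem_cons, not_or] at h1
    exact h1.1.1
  refine ⟨x, fun l => ?_⟩
  obtain ⟨p, q, r, hp, hq, hr, he⟩ := coords h l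
  have hne : bv a d.s l ≠ 0 := by
    by_cases hl : l = d.u
    · rw [hl]
      exact bv_ne hP _ huv
    · exact bv_ne hP _ hl
  rw [he, ip_comb, hx1, hx2, hx3]
  by_contra hcon
  have h1 : p = 0 := by linarith
  have h2 : q = 0 := by linarith
  have h3 : r = 0 := by linarith
  apply hne
  rw [he, h1, h2, h3]
  simp

theorem wall_u (hP : PI a) {d : Dat ι} (h : Good a d) : Tope a (flp d.s d.u) := by
  choose p q r hp hq hr he using coords h
  have hpos : ∀ l, l ≠ d.u → 0 < q l + r l := by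
    intro l hl
    by_contra hcon
    have h2 : q l = 0 := by linarith [hq l, hr l]
    have h3 : r l = 0 := by linarith [hq l, hr l]
    apply bv_par hP d.s hl (p l)
    conv_lhs => rw [he l, h2, h3]
    simp
  have hf : ∀ l ∈ univ, 0 ≤ p l / (q l + r l) := by
    intro l _
    exact div_nonneg (hp l) (add_nonneg (hq l) (hr l))
  set S := ∑ l, p l / (q l + r l) with hS
  have hS0 : 0 ≤ S := sum_nonneg hf
  have hS1 : 0 < 1 + S := by linarith
  obtain ⟨x, hx1, hx2, hx3⟩ := exists_ip _ _ _ h.2.1.ne' (-(1 + S)⁻¹) 1 1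
  refine ⟨x, fun l => ?_⟩
  by_cases hl : l = d.u
  · rw [hl, bv_flp_same, ip_neg, hx1, neg_neg]
    exact inv_pos.2 hS1
  · rw [bv_flp_ne _ hl, he l, ip_comb, hx1, hx2, hx3]
    have h1 : p l / (q l + r l) ≤ S := single_le_sum hf (mem_univ l)
    have h2 := hpos l hl
    have h3 : p l ≤ S * (q l + r l) := (div_le_iff₀ h2).1 h1
    have h4 : p l < (1 + S) * (q l + r l) := by linarith
    have h5 : (1 + S)⁻¹ * p l < q l + r l := by
      rw [inv_mul_lt_iff₀ hS1]
      exact h4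
    linarith

theorem side_u {d : Dat ι} (h : Good a d) : ln a d.v d.w = {d.v, d.w, d.u'} := by
  obtain ⟨h1, h2, h3⟩ := h
  have hnu : d.u ≠ d.v ∧ d.u ≠ d.w ∧ d.u ≠ d.u' := by
    simp only [List.nodup_cons, List.mem_cons, not_or] at h1
    exact ⟨h1.1.1, h1.1.2.1, h1.1.2.2.1⟩
  ext l
  unfold ln
  rw [mem_filter, mem_insert, mem_insert, mem_singleton]
  have hsy : dt (a d.v) (a d.w) (a l) = 0 ↔
      dt (bv a d.s l) (bv a d.s d.v) (bv a d.s d.w) = 0 := by
    rw [dt_bv, dt_cyc (a l)]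
  rw [hsy]
  by_cases hu : l = d.u
  · rw [hu]
    constructor
    · intro h4
      exact absurd h4.2 h2.ne'
    · intro h4
      rcases h4 with h4 | h4 | h4
      · exact absurd h4 hnu.1
      · exact absurd h4 hnu.2.1
      · exact absurd h4 hnu.2.2
  by_cases hv : l = d.v
  · rw [hv, dt_eq1]
    simp
  by_cases hw : l = d.w
  · rw [hw, dt_eq2]
    simp
  obtain ⟨h4, _, _⟩ := h3 l hu hv hw
  rw [h4.2]
  simp [hv, hw]

theorem gdw : GdwStmt := by
  intro ι _ a hP d h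
  have h1 := good_rot h
  have h2 := good_rot h1
  refine ⟨good_tope hP h, ?_, side_u h, side_u h1, side_u h2⟩
  ext l
  unfold walls
  rw [mem_filter, mem_insert, mem_insert, mem_singleton]
  constructor
  · rintro ⟨_, x, hx⟩
    by_contra hcon
    push Not at hcon
    obtain ⟨n1, n2, n3⟩ := hcon
    have e1 := hx d.u
    have e2 := hx d.v
    have e3 := hx d.w
    have e4 := hx l
    rw [bv_flp_ne _ n1.symm] at e1
    rw [bv_flp_ne _ n2.symm] at e2
    rw [bv_flp_ne _ n3.symm] at e3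
    obtain ⟨p, q, r, hp, hq, hr, he⟩ := coords h l
    rw [bv_flp_same, ip_neg, he, ip_comb] at e4
    have m1 := mul_nonneg hp e1.le
    have m2 := mul_nonneg hq e2.le
    have m3 := mul_nonneg hr e3.le
    linarith
  · rintro (hl | hl | hl)
    · rw [hl]
      exact ⟨mem_univ _, wall_u hP h⟩
    · rw [hl]
      exact ⟨mem_univ _, wall_u hP h1⟩
    · rw [hl]
      exact ⟨mem_univ _, wall_u hP h2⟩

end

end Pool.Agent.GTO.H60
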