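import Pool.Agent.Helper60_GTO.GDW

/-! Squad GTO, row NBR: the tope behind a wall of a good tope. -/

namespace Pool.Agent.GTO.H60

open Finset
open scoped Classical

theorem dt_comb1 (p q r : ℝ) (u v w : V) : dt (p • u + q • v + r • w) v w = p * dt u v w := by
  simp only [dt, Pi.add_apply, Pi.smul_apply, smul_eq_mul]
  ring

theorem dt_comb2 (p q r : ℝ) (u v w : V) : dt u (p • u + q • v + r • w) w = q * dt u v w := by
  simp only [dt, Pi.add_apply, Pi.smul_apply, smul_eq_mul]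
  ring

theorem dt_comb3 (p q r : ℝ) (u v w : V) : dt u v (p • u + q • v + r • w) = r * dt u v w := by
  simp only [dt, Pi.add_apply, Pi.smul_apply, smul_eq_mul]
  ring

variable {ι : Type} {a : ι → V}

theorem flp_flp (σ : ι → Bool) (i : ι) : flp (flp σ i) i = σ := by
  unfold flp
  rw [Function.update_self, Function.update_idem, Bool.not_not, Function.update_eq_self]

/-- all six labels are different -/
theorem good_ne {d : Dat ι} (h : Good a d) : d.u ≠ d.v ∧ d.v ≠ d.w ∧ d.w ≠ d.u ∧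
    d.u' ≠ d.u ∧ d.u' ≠ d.v ∧ d.u' ≠ d.w ∧ d.v' ≠ d.u ∧ d.v' ≠ d.v ∧ d.v' ≠ d.w ∧
    d.w' ≠ d.u ∧ d.w' ≠ d.v ∧ d.w' ≠ d.w ∧ d.u' ≠ d.v' ∧ d.v' ≠ d.w' ∧ d.w' ≠ d.u' := by
  have h1 := h.1
  simp only [List.nodup_cons, List.mem_cons, List.not_mem_nil, not_or, or_false] at h1
  obtain ⟨⟨p1, p2, p3, p4, p5⟩, ⟨q1, q2, q3, q4⟩, ⟨r1, r2, r3⟩, ⟨s1, s2⟩, t1, u1⟩ := h1
  exact ⟨p1, q1, Ne.symm p2, Ne.symm p3, Ne.symm q2, Ne.symm r1, Ne.symm p4, Ne.symm q3,
    Ne.symm r2, Ne.symm p5, Ne.symm q4, Ne.symm r3, s1, t1, Ne.symm s2⟩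

/-- coordinates with their zeros -/
theorem coords' (hP : PI a) {d : Dat ι} (h : Good a d) : ∃ p q r : ι → ℝ,
    (∀ l, 0 ≤ p l) ∧ (∀ l, 0 ≤ q l) ∧ (∀ l, 0 ≤ r l) ∧
    (∀ l, bv a d.s l = p l • bv a d.s d.u + q l • bv a d.s d.v + r l • bv a d.s d.w) ∧
    (∀ l, p l = 0 ↔ l = d.v ∨ l = d.w ∨ l = d.u') ∧
    (∀ l, q l = 0 ↔ l = d.u ∨ l = d.w ∨ l = d.v') ∧
    (∀ l, r l = 0 ↔ l = d.u ∨ l = d.v ∨ l = d.w') := by
  obtain ⟨n1, n2, n3, n4, n5, n6, n7, n8, n9, n10, n11, n12, n13, n14, n15⟩ := good_ne h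
  choose p q r hp hq hr he using coords h
  obtain ⟨h1, h2, h3⟩ := h
  have e1 : ∀ l, dt (bv a d.s l) (bv a d.s d.v) (bv a d.s d.w) =
      p l * dt (bv a d.s d.u) (bv a d.s d.v) (bv a d.s d.w) := by
    intro l
    conv_lhs => rw [he l]
    exact dt_comb1 _ _ _ _ _ _
  have e2 : ∀ l, dt (bv a d.s d.u) (bv a d.s l) (bv a d.s d.w) =
      q l * dt (bv a d.s d.u) (bv a d.s d.v) (bv a d.s d.w) := by
    intro l
    conv_lhs => rw [he l]
    exact dt_comb2 _ _ _ _ _ _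
  have e3 : ∀ l, dt (bv a d.s d.u) (bv a d.s d.v) (bv a d.s l) =
      r l * dt (bv a d.s d.u) (bv a d.s d.v) (bv a d.s d.w) := by
    intro l
    conv_lhs => rw [he l]
    exact dt_comb3 _ _ _ _ _ _
  have z1 : ∀ l, p l = 0 ↔ dt (bv a d.s l) (bv a d.s d.v) (bv a d.s d.w) = 0 := by
    intro l
    rw [e1 l, mul_eq_zero, or_iff_left h2.ne']
  have z2 : ∀ l, q l = 0 ↔ dt (bv a d.s d.u) (bv a d.s l) (bv a d.s d.w) = 0 := by
    intro l
    rw [e2 l, mul_eq_zero, or_iff_left h2.ne']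
  have z3 : ∀ l, r l = 0 ↔ dt (bv a d.s d.u) (bv a d.s d.v) (bv a d.s l) = 0 := by
    intro l
    rw [e3 l, mul_eq_zero, or_iff_left h2.ne']
  refine ⟨p, q, r, hp, hq, hr, he, ?_, ?_, ?_⟩
  · intro l
    rw [z1]
    by_cases hu : l = d.u
    · rw [hu]
      simp [h2.ne', n1, n3.symm, n4.symm]
    by_cases hv : l = d.v
    · rw [hv, dt_eq1]
      simp
    by_cases hw : l = d.w
    · rw [hw, dt_eq2]
      simp
    rw [(h3 l hu hv hw).1.2]
    simp [hv, hw]
  · intro l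
    rw [z2]
    by_cases hu : l = d.u
    · rw [hu, dt_eq1]
      simp
    by_cases hv : l = d.v
    · rw [hv]
      simp [h2.ne', n1.symm, n2, n8.symm]
    by_cases hw : l = d.w
    · rw [hw, dt_eq3]
      simp
    rw [(h3 l hu hv hw).2.1.2]
    simp [hu, hw]
  · intro l
    rw [z3]
    by_cases hu : l = d.u
    · rw [hu, dt_eq2]
      simp
    by_cases hv : l = d.v
    · rw [hv, dt_eq3]
      simp
    by_cases hw : l = d.w
    · rw [hw]
      simp [h2.ne', n2.symm, n3, n12.symm]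
    rw [(h3 l hu hv hw).2.2.2]
    simp [hu, hv]

theorem wall_aux [Fintype ι] (σ : ι → Bool) (e1 e2 e3 : V) (hD : dt e1 e2 e3 ≠ 0) (p q r : ι → ℝ)
    (hp : ∀ l, 0 ≤ p l) (hq : ∀ l, 0 ≤ q l) (hr : ∀ l, 0 ≤ r l)
    (he : ∀ l, bv a σ l = p l • e1 + q l • e2 + r l • e3) (k w : ι) (hkw : k ≠ w)
    (hw : bv a σ w = e3) (hk1 : p k = 0) (hk2 : 0 < q k) (hk3 : 0 < r k)
    (hl : ∀ l, l ≠ k → l ≠ w → 0 < p l ∨ (r l = 0 ∧ 0 < q l)) :
    Tope a (flp (flp σ w) k) := by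
  have hf : ∀ l ∈ univ, 0 ≤ r l / p l := fun l _ => div_nonneg (hr l) (hp l)
  set S := ∑ l, r l / p l with hS
  have hS0 : 0 ≤ S := sum_nonneg hf
  set δ := r k / (2 * q k) with hδ
  have hδ0 : 0 < δ := by positivity
  have hδ1 : q k * δ = r k / 2 := by
    rw [hδ]
    field_simp
  obtain ⟨x, hx1, hx2, hx3⟩ := exists_ip _ _ _ hD (1 + S) δ (-1)
  refine ⟨x, fun l => ?_⟩
  by_cases h1 : l = k
  · rw [h1, bv_flp_same, bv_flp_ne _ hkw, ip_neg, he k, ip_comb, hx1, hx2, hx3, hk1, hδ1]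
    linarith
  by_cases h2 : l = w
  · rw [h2, bv_flp_ne _ hkw.symm, bv_flp_same, hw, ip_neg, hx3]
    norm_num
  rw [bv_flp_ne _ h1, bv_flp_ne _ h2, he l, ip_comb, hx1, hx2, hx3]
  have h3 := mul_nonneg (hq l) hδ0.le
  rcases hl l h1 h2 with h4 | ⟨h4, h5⟩
  · have h5 : r l / p l ≤ S := single_le_sum hf (mem_univ l)
    have h6 : r l ≤ S * p l := (div_le_iff₀ h4).1 h5
    have h7 : p l * (1 + S) = p l + S * p l := by ring
    linarith
  · have h6 := mul_pos h5 hδ0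
    have h7 := mul_nonneg (hp l) (by linarith : (0 : ℝ) ≤ 1 + S)
    rw [h4]
    linarith

theorem nbr : NbrStmt := by
  intro ι _ a hP d h
  obtain ⟨g1, g2, g3, g4, g5⟩ := gdw ι a hP d h
  obtain ⟨n1, n2, n3, n4, n5, n6, n7, n8, n9, n10, n11, n12, n13, n14, n15⟩ := good_ne h
  obtain ⟨p, q, r, hp, hq, hr, he, zp, zq, zr⟩ := coords' hP h
  have hD := h.2.1
  have hw : d.w ∈ walls a d.s := by
    rw [g2]
    simp
  have hT : Tope a (flp d.s d.w) := by
    unfold walls at hw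
    exact (mem_filter.1 hw).2
  have pu' : p d.u' = 0 := (zp _).2 (Or.inr (Or.inr rfl))
  have qu' : 0 < q d.u' := by
    refine lt_of_le_of_ne (hq _) (fun h0 => ?_)
    rcases (zq _).1 h0.symm with h1 | h1 | h1
    · exact n4 h1
    · exact n6 h1
    · exact n13 h1
  have ru' : 0 < r d.u' := by
    refine lt_of_le_of_ne (hr _) (fun h0 => ?_)
    rcases (zr _).1 h0.symm with h1 | h1 | h1
    · exact n4 h1
    · exact n5 h1
    · exact n15 h1.symm
  have qv' : q d.v' = 0 := (zq _).2 (Or.inr (Or.inr rfl))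
  have pv' : 0 < p d.v' := by
    refine lt_of_le_of_ne (hp _) (fun h0 => ?_)
    rcases (zp _).1 h0.symm with h1 | h1 | h1
    · exact n8 h1
    · exact n9 h1
    · exact n13 h1.symm
  have rv' : 0 < r d.v' := by
    refine lt_of_le_of_ne (hr _) (fun h0 => ?_)
    rcases (zr _).1 h0.symm with h1 | h1 | h1
    · exact n7 h1
    · exact n8 h1
    · exact n14 h1
  refine ⟨hT, ?_, ?_, ?_, ?_, ?_⟩
  · unfold walls
    rw [mem_filter, flp_flp]
    exact ⟨mem_univ _, g1⟩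
  · unfold walls
    rw [mem_filter]
    refine ⟨mem_univ _, wall_aux d.s (bv a d.s d.u) (bv a d.s d.v) (bv a d.s d.w) hD.ne' p q r
      hp hq hr he d.u' d.w n6 rfl pu' qu' ru' ?_⟩
    intro l h1 h2
    by_cases h3 : l = d.v
    · right
      rw [h3]
      refine ⟨(zr _).2 (Or.inr (Or.inl rfl)), lt_of_le_of_ne (hq _) (fun h0 => ?_)⟩
      rcases (zq _).1 h0.symm with h4 | h4 | h4
      · exact n1 h4.symm
      · exact n2 h4
      · exact n8 h4.symm
    · left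
      refine lt_of_le_of_ne (hp _) (fun h0 => ?_)
      rcases (zp _).1 h0.symm with h4 | h4 | h4
      · exact h3 h4
      · exact h2 h4
      · exact h1 h4
  · unfold walls
    rw [mem_filter]
    refine ⟨mem_univ _, wall_aux d.s (bv a d.s d.v) (bv a d.s d.u) (bv a d.s d.w) ?_ q p r
      hq hp hr ?_ d.v' d.w n9 rfl qv' pv' rv' ?_⟩
    · have : dt (bv a d.s d.v) (bv a d.s d.u) (bv a d.s d.w) =
          - dt (bv a d.s d.u) (bv a d.s d.v) (bv a d.s d.w) := by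
        unfold dt
        ring
      rw [this]
      exact neg_ne_zero.2 hD.ne'
    · intro l
      rw [add_comm (q l • bv a d.s d.v)]
      exact he l
    intro l h1 h2
    by_cases h3 : l = d.u
    · right
      rw [h3]
      refine ⟨(zr _).2 (Or.inl rfl), lt_of_le_of_ne (hp _) (fun h0 => ?_)⟩
      rcases (zp _).1 h0.symm with h4 | h4 | h4
      · exact n1 h4
      · exact n3 h4.symm
      · exact n4 h4.symm
    · left
      refine lt_of_le_of_ne (hq _) (fun h0 => ?_)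
      rcases (zq _).1 h0.symm with h4 | h4 | h4
      · exact h3 h4
      · exact h2 h4
      · exact h1 h4
  · ext l
    have h1 : l ∈ ln a d.w d.u' ↔ l ∈ ln a d.v d.w := by
      unfold ln
      rw [mem_filter, mem_filter, ← dt_bv (a := a) d.s d.w, ← dt_bv (a := a) d.s d.v]
      have h2 : dt (bv a d.s d.w) (bv a d.s d.u') (bv a d.s l) =
          - q d.u' * dt (bv a d.s d.v) (bv a d.s d.w) (bv a d.s l) := by
        rw [he d.u', pu']
        simp only [dt, Pi.add_apply, Pi.smul_apply, smul_eq_mul]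
        ring
      rw [h2, mul_eq_zero, or_iff_right (neg_ne_zero.2 qu'.ne')]
    rw [h1, g3]
    simp only [mem_insert, mem_singleton]
    tauto
  · ext l
    have h1 : l ∈ ln a d.w d.v' ↔ l ∈ ln a d.w d.u := by
      unfold ln
      rw [mem_filter, mem_filter, ← dt_bv (a := a) d.s d.w, ← dt_bv (a := a) d.s d.w d.u]
      have h2 : dt (bv a d.s d.w) (bv a d.s d.v') (bv a d.s l) =
          p d.v' * dt (bv a d.s d.w) (bv a d.s d.u) (bv a d.s l) := by
        rw [he d.v', qv']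
        simp only [dt, Pi.add_apply, Pi.smul_apply, smul_eq_mul]
        ring
      rw [h2, mul_eq_zero, or_iff_right pv'.ne']
    rw [h1, g4]
    simp only [mem_insert, mem_singleton]
    tauto

end Pool.Agent.GTO.H60
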